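import Mathlib

/-!
# Self-dual minor-closed classes containing all independence spaces (MP_cb2a9f_co, Q1)

The statement of Q1 is false for every infinite set `S`. The matroids which are the direct sum of a
finitary matroid (an independence space) and of the dual of a finitary matroid form an admissible
system containing all independence spaces. It is even closed under arbitrary direct sums. On every
infinite set there is a B-matroid which is not of this form: if `W` is the disjoint union of the
infinite sets `X` and `Y`, take the matroid whose bases are `Y` and the sets `{x} ∪ (Y \ {y})`,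
`x ∈ X`, `y ∈ Y`. It is connected, has the infinite circuits `{x} ∪ Y` and the infinite cocircuits
`X ∪ {y}`.
-/

open Set Matroid

namespace Pool.Agent.Results.MP_cb2a9f_co.ManySystems

variable {α : Type*}

/-- `B` is a basis of the family `I` of sets: a maximal member. -/
def IsBasisOf (I : Set (Set α)) (B : Set α) : Prop := Maximal (fun X => X ∈ I) B

/-- `(W, I)` is a pre-independence space. -/
structure IsPreIndependenceSpace (W : Set α) (I : Set (Set α)) : Prop where
  subset_ground : ∀ X ∈ I, X ⊆ W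
  empty_mem : ∅ ∈ I
  subset_mem : ∀ X ∈ I, ∀ Y ⊆ X, Y ∈ I
  augment : ∀ I₁ ∈ I, ∀ I₂ ∈ I, I₁.Finite → I₂.Finite → I₁.ncard < I₂.ncard →
    ∃ e ∈ I₂ \ I₁, I₁ ∪ {e} ∈ I

/-- `(W, I)` is an independence space. -/
structure IsIndependenceSpace (W : Set α) (I : Set (Set α)) : Prop
    extends IsPreIndependenceSpace W I where
  finitary : ∀ Y ⊆ W, (∀ F ⊆ Y, F.Finite → F ∈ I) → Y ∈ I

/-- The maximal members of `I` contained in `X`. -/
def MaxIn (I : Set (Set α)) (X : Set α) : Set (Set α) :=
  {B | Maximal (fun Y => Y ∈ I ∧ Y ⊆ X) B}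

/-- `(W, I)` is a B-matroid. -/
structure IsBMatroid (W : Set α) (I : Set (Set α)) : Prop where
  subset_ground : ∀ X ∈ I, X ⊆ W
  empty_mem : ∅ ∈ I
  subset_mem : ∀ X ∈ I, ∀ Y ⊆ X, Y ∈ I
  ib1 : ∀ X ⊆ W, ∀ T ∈ I, T ⊆ X → ∃ B ∈ MaxIn I X, T ⊆ B
  ib2 : ∀ X ⊆ W, ∀ B₁ ∈ MaxIn I X, ∀ B₂ ∈ MaxIn I X, ∀ x ∈ B₁ \ B₂,
    ∃ y ∈ B₂ \ B₁, (B₁ \ {x}) ∪ {y} ∈ MaxIn I X

/-- The restriction of the family `I` to the set `Z`. -/
def restriction (I : Set (Set α)) (Z : Set α) : Set (Set α) := {Y | Y ⊆ Z ∧ Y ∈ I}

/-- The contraction of the family `I` to the set `Z`, formed with the set `B`. -/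
def contraction (I : Set (Set α)) (Z B : Set α) : Set (Set α) := {Y | Y ⊆ Z ∧ Y ∪ B ∈ I}

/-- The dual of the family `I` of subsets of `W`. -/
def dual (W : Set α) (I : Set (Set α)) : Set (Set α) :=
  {X | X ⊆ W ∧ ∃ B, IsBasisOf I B ∧ B ⊆ W \ X}

/-- Admissible systems; the infinite set `S` of the problem is the set of all elements of the
type `α`. -/
structure Admissible (D : Set α → Set (Set (Set α))) : Prop where
  pre : ∀ W, ∀ I ∈ D W, IsPreIndependenceSpace W I
  restrict : ∀ W, ∀ Z ⊆ W, ∀ I ∈ D W, restriction I Z ∈ D Z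
  contract_exists : ∀ W, ∀ Z ⊆ W, ∀ I ∈ D W, ∃ B, IsBasisOf (restriction I (W \ Z)) B
  contract_unique : ∀ W, ∀ Z ⊆ W, ∀ I ∈ D W, ∀ B B', IsBasisOf (restriction I (W \ Z)) B →
    IsBasisOf (restriction I (W \ Z)) B' → contraction I Z B = contraction I Z B'
  contract_mem : ∀ W, ∀ Z ⊆ W, ∀ I ∈ D W, ∀ B, IsBasisOf (restriction I (W \ Z)) B →
    contraction I Z B ∈ D Z
  dual_mem : ∀ W, ∀ I ∈ D W, dual W I ∈ D W
  dual_dual : ∀ W, ∀ I ∈ D W, dual W (dual W I) = I

/-- The system `D` is closed under direct sums of arbitrary families with pairwise disjoint ground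
sets. -/
def ClosedUnderDirectSums (D : Set α → Set (Set (Set α))) : Prop :=
  ∀ (𝓦 : Set (Set α)) (I : Set α → Set (Set α)), 𝓦.PairwiseDisjoint id →
    (∀ W ∈ 𝓦, I W ∈ D W) → {X | X ⊆ ⋃₀ 𝓦 ∧ ∀ W ∈ 𝓦, X ∩ W ∈ I W} ∈ D (⋃₀ 𝓦)

/-! ### Matroids -/

/-- The family of independent sets of a matroid. -/
def fam (M : Matroid α) : Set (Set α) := {X | M.Indep X}

lemma isBasisOf_fam {M : Matroid α} {B : Set α} : IsBasisOf (fam M) B ↔ M.IsBase B := by
  rw [isBase_iff_maximal_indep]; rfl

lemma dual_fam (M : Matroid α) : dual M.E (fam M) = fam M✶ := by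
  ext X
  have : X ∈ fam M✶ ↔ M.Coindep X := Iff.rfl
  rw [this, coindep_iff_exists']
  simp only [dual, mem_ofPred_eq, isBasisOf_fam]
  tauto

lemma restriction_fam (M : Matroid α) (Z : Set α) : restriction (fam M) Z = fam (M ↾ Z) := by
  ext X
  simp only [restriction, fam, mem_ofPred_eq, restrict_indep_iff]
  tauto

lemma contraction_fam (M : Matroid α) {Z : Set α} {B : Set α}
    (hB : IsBasisOf (restriction (fam M) (M.E \ Z)) B) :
    contraction (fam M) Z B = fam (M ／ (M.E \ Z)) := by
  rw [restriction_fam, isBasisOf_fam, isBase_restrict_iff] at hB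
  ext Y
  simp only [contraction, fam, mem_ofPred_eq]
  rw [hB.contract_indep_iff]
  constructor
  · rintro ⟨h1, h2⟩
    exact ⟨h2, disjoint_sdiff_left.mono_right h1⟩
  · rintro ⟨h1, h2⟩
    refine ⟨fun y hy => ?_, h1⟩
    by_contra hyZ
    exact (disjoint_left.1 h2) ⟨h1.subset_ground (Or.inl hy), hyZ⟩ hy

lemma pre_fam (M : Matroid α) : IsPreIndependenceSpace M.E (fam M) where
  subset_ground X hX := Indep.subset_ground hX
  empty_mem := M.empty_indep
  subset_mem X hX Y hY := Indep.subset hX hY
  augment I₁ h₁ I₂ h₂ f₁ f₂ hlt := by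
    have := Indep.augment (M := M) h₁ h₂ (by
      rw [← f₁.cast_ncard_eq, ← f₂.cast_ncard_eq]; exact_mod_cast hlt)
    obtain ⟨e, he, h⟩ := this
    exact ⟨e, he, by rw [union_singleton]; exact h⟩

lemma bMatroid_fam (M : Matroid α) : IsBMatroid M.E (fam M) where
  subset_ground X hX := Indep.subset_ground hX
  empty_mem := M.empty_indep
  subset_mem X hX Y hY := Indep.subset hX hY
  ib1 X hX T hT hTX := by
    obtain ⟨J, hJ, hTJ⟩ := Indep.subset_isBasis_of_subset hT hTX hX
    exact ⟨J, hJ.1, hTJ⟩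
  ib2 X hX B₁ h₁ B₂ h₂ x hx := by
    have key : ∀ B, B ∈ MaxIn (fam M) X ↔ (M ↾ X).IsBase B := by
      intro B
      rw [isBase_restrict_iff hX]
      exact ⟨fun h => ⟨h, hX⟩, fun h => h.1⟩
    rw [key] at h₁ h₂
    obtain ⟨y, hy, h⟩ := h₁.exchange h₂ hx
    exact ⟨y, hy, by rw [key, union_singleton]; exact h⟩


/-- Direct sums of a finitary and a cofinitary matroid. -/
def Split (M : Matroid α) : Prop :=
  ∃ (A B : Matroid α) (h : Disjoint A.E B.E), A.Finitary ∧ B✶.Finitary ∧ M = A.disjointSum B h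

lemma Split.dual {M : Matroid α} (hM : Split M) : Split M✶ := by
  obtain ⟨A, B, h, hA, hB, rfl⟩ := hM
  have h' : Disjoint B✶.E A✶.E := h.symm
  refine ⟨B✶, A✶, h', hB, by rwa [Matroid.dual_dual], ?_⟩
  refine ext_isBase (by simp [union_comm]) fun X hX => ?_
  simp only [dual_ground, disjointSum_ground_eq] at hX
  rw [dual_isBase_iff (by simpa using hX)]
  simp only [disjointSum_isBase_iff, disjointSum_ground_eq, dual_ground]
  rw [dual_isBase_iff inter_subset_right, dual_isBase_iff inter_subset_right]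
  have e1 : (A.E ∪ B.E) \ X ∩ A.E = A.E \ (X ∩ A.E) := by
    ext x; simp only [mem_inter_iff, mem_sdiff, mem_union]; tauto
  have e2 : (A.E ∪ B.E) \ X ∩ B.E = B.E \ (X ∩ B.E) := by
    ext x; simp only [mem_inter_iff, mem_sdiff, mem_union]; tauto
  rw [e1, e2]
  constructor
  · rintro ⟨a, b, -⟩
    exact ⟨b, a, by rwa [union_comm]⟩
  · rintro ⟨a, b, -⟩
    exact ⟨b, a, sdiff_subset⟩

lemma Split.restrict {M : Matroid α} (hM : Split M) {Z : Set α} (hZ : Z ⊆ M.E) :
    Split (M ↾ Z) := by
  obtain ⟨A, B, h, hA, hB, rfl⟩ := hM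
  rw [disjointSum_ground_eq] at hZ
  have hB' : (B ↾ (Z ∩ B.E))✶.Finitary := by
    rw [← delete_compl inter_subset_right, dual_delete]
    infer_instance
  refine ⟨A ↾ (Z ∩ A.E), B ↾ (Z ∩ B.E), ?_, inferInstance, hB', ?_⟩
  · exact h.mono inter_subset_right inter_subset_right
  refine ext_indep ?_ fun X hX => ?_
  · simp only [restrict_ground_eq, disjointSum_ground_eq]
    rw [← inter_union_distrib_left, inter_eq_self_of_subset_left hZ]
  simp only [restrict_ground_eq] at hX
  have e1 : X ∩ (Z ∩ A.E) = X ∩ A.E := by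
    ext x; simp only [mem_inter_iff]; exact ⟨fun h => ⟨h.1, h.2.2⟩, fun h => ⟨h.1, hX h.1, h.2⟩⟩
  have e2 : X ∩ (Z ∩ B.E) = X ∩ B.E := by
    ext x; simp only [mem_inter_iff]; exact ⟨fun h => ⟨h.1, h.2.2⟩, fun h => ⟨h.1, hX h.1, h.2⟩⟩
  simp only [restrict_indep_iff, disjointSum_indep_iff, restrict_ground_eq, e1, e2]
  constructor
  · rintro ⟨⟨a, b, c⟩, -⟩
    refine ⟨⟨a, ?_⟩, ⟨b, ?_⟩, ?_⟩
    · exact inter_subset_inter_left _ hX
    · exact inter_subset_inter_left _ hX
    · rw [← inter_union_distrib_left]; exact subset_inter hX c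
  · rintro ⟨⟨a, -⟩, ⟨b, -⟩, -⟩
    exact ⟨⟨a, b, hX.trans hZ⟩, hX⟩

lemma Split.contract {M : Matroid α} (hM : Split M) (C : Set α) : Split (M ／ C) := by
  have h := (hM.dual.restrict (Z := M.E \ C) (by simp)).dual
  have e : (M✶ ↾ (M.E \ C))✶ = M ／ C := rfl
  rwa [e] at h

/-- The system. -/
def sys (α : Type*) (W : Set α) : Set (Set (Set α)) :=
  {I | ∃ M : Matroid α, Split M ∧ M.E = W ∧ I = fam M}

lemma admissible_sys : Admissible (sys α) where
  pre W I hI := by
    obtain ⟨M, -, rfl, rfl⟩ := hI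
    exact pre_fam M
  restrict W Z hZ I hI := by
    obtain ⟨M, hM, rfl, rfl⟩ := hI
    exact ⟨M ↾ Z, hM.restrict hZ, rfl, restriction_fam M Z⟩
  contract_exists W Z hZ I hI := by
    obtain ⟨M, hM, rfl, rfl⟩ := hI
    obtain ⟨B, hB⟩ := (M ↾ (M.E \ Z)).exists_isBase
    exact ⟨B, by rw [restriction_fam, isBasisOf_fam]; exact hB⟩
  contract_unique W Z hZ I hI B B' hB hB' := by
    obtain ⟨M, hM, rfl, rfl⟩ := hI
    rw [contraction_fam M hB, contraction_fam M hB']
  contract_mem W Z hZ I hI B hB := by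
    obtain ⟨M, hM, rfl, rfl⟩ := hI
    exact ⟨M ／ (M.E \ Z), hM.contract _, by simp [hZ], contraction_fam M hB⟩
  dual_mem W I hI := by
    obtain ⟨M, hM, rfl, rfl⟩ := hI
    exact ⟨M✶, hM.dual, rfl, dual_fam M⟩
  dual_dual W I hI := by
    obtain ⟨M, hM, rfl, rfl⟩ := hI
    rw [dual_fam, ← dual_ground, dual_fam, Matroid.dual_dual]


open scoped Function in
lemma split_disjointSigma {ι : Type*} (M : ι → Matroid α)
    (h : Pairwise (Disjoint on fun i ↦ (M i).E)) (hM : ∀ i, Split (M i)) :
    Split (Matroid.disjointSigma M h) := by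
  choose A B hAB hA hB hM' using hM
  have hE : ∀ i, (M i).E = (A i).E ∪ (B i).E := fun i => by
    rw [hM' i, disjointSum_ground_eq]
  have hAi : ∀ i, (A i).E ⊆ (M i).E := fun i => by rw [hE]; exact subset_union_left
  have hBi : ∀ i, (B i).E ⊆ (M i).E := fun i => by rw [hE]; exact subset_union_right
  have dA : Pairwise (Disjoint on fun i ↦ (A i).E) := fun i j hij =>
    (h hij).mono (hAi i) (hAi j)
  have dB : Pairwise (Disjoint on fun i ↦ (B i).E) := fun i j hij =>
    (h hij).mono (hBi i) (hBi j)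
  have dB' : Pairwise (Disjoint on fun i ↦ ((B i)✶).E) := dB
  have hd : Disjoint (Matroid.disjointSigma A dA).E (Matroid.disjointSigma B dB).E := by
    simp only [disjointSigma_ground_eq, disjoint_iUnion_left, disjoint_iUnion_right]
    intro i j
    rcases eq_or_ne i j with rfl | hij
    · exact hAB i
    · exact (h hij.symm).mono (hAi j) (hBi i)
  have fin : ∀ (N : ι → Matroid α) (hN : Pairwise (Disjoint on fun i ↦ (N i).E)),
      (∀ i, (N i).Finitary) → (Matroid.disjointSigma N hN).Finitary := by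
    intro N hN hf
    refine ⟨fun I hI => ?_⟩
    rw [disjointSigma_indep_iff]
    constructor
    · intro i
      have := hf i
      apply indep_of_forall_finite_subset_indep
      intro J hJ hJf
      have := hI J (hJ.trans inter_subset_left) hJf
      rw [disjointSigma_indep_iff] at this
      have := this.1 i
      rwa [inter_eq_self_of_subset_left (hJ.trans inter_subset_right)] at this
    · intro x hx
      have := hI {x} (singleton_subset_iff.2 hx) (finite_singleton x)
      rw [disjointSigma_indep_iff] at this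
      exact this.2 rfl
  refine ⟨Matroid.disjointSigma A dA, Matroid.disjointSigma B dB, hd, fin A dA hA, ?_, ?_⟩
  · have e : (Matroid.disjointSigma B dB)✶ = Matroid.disjointSigma (fun i => (B i)✶) dB' := by
      refine ext_isBase (by simp) fun X hX => ?_
      simp only [dual_ground, disjointSigma_ground_eq] at hX
      rw [dual_isBase_iff (by simpa using hX), disjointSigma_isBase_iff, disjointSigma_isBase_iff]
      simp only [disjointSigma_ground_eq, dual_ground, hX, and_true, sdiff_subset]
      refine forall_congr' fun i => ?_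
      rw [dual_isBase_iff inter_subset_right]
      have : ((⋃ i, (B i).E) \ X) ∩ (B i).E = (B i).E \ (X ∩ (B i).E) := by
        ext x
        simp only [mem_inter_iff, mem_sdiff, mem_iUnion]
        exact ⟨fun h => ⟨h.2, fun h' => h.1.2 h'.1⟩, fun h => ⟨⟨⟨i, h.1⟩, fun h' => h.2 ⟨h', h.1⟩⟩,
          h.1⟩⟩
      rw [this]
    rw [e]
    exact fin _ dB' hB
  · refine ext_indep ?_ fun X hX => ?_
    · simp only [disjointSigma_ground_eq, disjointSum_ground_eq, hE, iUnion_union_distrib]
    simp only [disjointSigma_ground_eq] at hX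
    simp only [disjointSigma_indep_iff, disjointSum_indep_iff, disjointSigma_ground_eq, hX,
      and_true]
    have e1 : ∀ i, (X ∩ ⋃ i, (A i).E) ∩ (A i).E = X ∩ (A i).E := fun i => by
      rw [inter_assoc, inter_eq_self_of_subset_right (subset_iUnion (fun i => (A i).E) i)]
    have e2 : ∀ i, (X ∩ ⋃ i, (B i).E) ∩ (B i).E = X ∩ (B i).E := fun i => by
      rw [inter_assoc, inter_eq_self_of_subset_right (subset_iUnion (fun i => (B i).E) i)]
    simp only [e1, e2, inter_subset_right, and_true]
    have hX' : X ⊆ (⋃ i, (A i).E) ∪ ⋃ i, (B i).E := by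
      rw [← iUnion_union_distrib]; simpa only [hE] using hX
    simp only [hX', and_true]
    rw [← forall_and]
    refine forall_congr' fun i => ?_
    have e3 : (M i).Indep (X ∩ (M i).E) ↔ (A i).Indep (X ∩ (M i).E ∩ (A i).E) ∧
        (B i).Indep (X ∩ (M i).E ∩ (B i).E) := by
      have : ∀ Y, (M i).Indep Y ↔ ((A i).disjointSum (B i) (hAB i)).Indep Y := fun Y => by
        rw [← hM' i]
      rw [this, disjointSum_indep_iff, ← hE i]
      simp only [inter_subset_right, and_true]
    rw [e3, inter_assoc, inter_assoc, inter_eq_self_of_subset_right (hAi i),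
      inter_eq_self_of_subset_right (hBi i)]

lemma closed_sys : ClosedUnderDirectSums (sys α) := by
  intro 𝓦 I hd hI
  have : Nonempty (Matroid α) := ⟨emptyOn α⟩
  choose! M hM using hI
  have h : Pairwise (Function.onFun Disjoint fun W : 𝓦 ↦ (M W).E) := by
    intro W W' hne
    have := hd W.2 W'.2 (fun h => hne (Subtype.ext h))
    simp only [Function.onFun, id] at this ⊢
    rwa [(hM W W.2).2.1, (hM W' W'.2).2.1]
  refine ⟨Matroid.disjointSigma (fun W : 𝓦 => M W) h,
    split_disjointSigma _ h fun W => (hM W W.2).1, ?_, ?_⟩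
  · rw [disjointSigma_ground_eq, sUnion_eq_iUnion]
    exact iUnion_congr fun W => (hM W W.2).2.1
  · ext X
    simp only [fam, mem_ofPred_eq, disjointSigma_indep_iff]
    rw [and_comm]
    refine and_congr ?_ ?_
    · constructor
      · intro h W
        have := h W W.2
        rw [(hM W W.2).2.2] at this
        rw [(hM W W.2).2.1]
        exact this
      · intro h W hW
        have := h ⟨W, hW⟩
        simp only at this
        rw [(hM W hW).2.1] at this
        rw [(hM W hW).2.2]
        exact this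
    · rw [sUnion_eq_iUnion]
      have : (⋃ W : 𝓦, (M W).E) = ⋃ W : 𝓦, (W : Set α) :=
        iUnion_congr fun W => (hM W W.2).2.1
      rw [this]

lemma indep_mem_sys {W : Set α} {I : Set (Set α)} (h : IsIndependenceSpace W I) : I ∈ sys α W := by
  let N := IndepMatroid.ofFinitaryCardAugment W (fun X => X ∈ I) h.empty_mem
    (fun X Y hY hXY => h.subset_mem Y hY X hXY)
    (fun X Y hX fX hY fY hlt => by
      obtain ⟨e, he, h'⟩ := h.augment X hX Y hY fX fY hlt
      exact ⟨e, he.1, he.2, by rwa [union_singleton] at h'⟩)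
    (fun Y hY => h.finitary Y
      (fun y hy => h.subset_ground {y} (hY {y} (singleton_subset_iff.2 hy) (finite_singleton y)) rfl)
      hY)
    h.subset_ground
  have hN : N.matroid.Finitary := IndepMatroid.ofFinitaryCardAugment_finitary _ _ _ _ _ _ _
  have hd : Disjoint N.matroid.E (emptyOn α).E := by simp
  refine ⟨N.matroid.disjointSum (emptyOn α) hd, ⟨N.matroid, emptyOn α, hd, hN, ?_, rfl⟩, ?_, ?_⟩
  · rw [emptyOn_dual_eq]; infer_instance
  · simp only [disjointSum_ground_eq, emptyOn_ground, union_empty]; rfl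
  · ext X
    simp only [fam, mem_ofPred_eq, disjointSum_indep_iff, emptyOn_ground, inter_empty,
      union_empty, emptyOn_indep_iff, true_and]
    have e1 : N.matroid.E = W := rfl
    have e2 : ∀ Y, N.matroid.Indep Y ↔ Y ∈ I := fun Y => Iff.rfl
    rw [e1, e2]
    constructor
    · intro hX
      have := h.subset_ground X hX
      exact ⟨by rwa [inter_eq_self_of_subset_left this], this⟩
    · rintro ⟨h1, h2⟩
      rwa [inter_eq_self_of_subset_left h2] at h1


/-! ### The connected matroid -/

/-- The bases of the example. -/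
def ExBase (X Y B : Set α) : Prop := B = Y ∨ ∃ x ∈ X, ∃ y ∈ Y, B = insert x (Y \ {y})

lemma exBase_antichain {X Y B B' : Set α} (h : Disjoint X Y) (hB : ExBase X Y B)
    (hB' : ExBase X Y B') (hs : B ⊆ B') : B = B' := by
  have hXY : ∀ x ∈ X, x ∉ Y := fun x hx hy => disjoint_left.1 h hx hy
  rcases hB with rfl | ⟨x, hx, y, hy, rfl⟩ <;> rcases hB' with rfl | ⟨x', hx', y', hy', rfl⟩
  · rfl
  · have := hs hy'
    simp only [mem_insert_iff, mem_sdiff, mem_singleton_iff, not_true_eq_false, and_false,
      or_false] at this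
    exact absurd (this ▸ hy') (hXY _ hx')
  · exact absurd (hs (mem_insert _ _)) (hXY _ hx)
  · have h1 : x = x' := by
      rcases hs (mem_insert _ _) with h1 | h1
      · exact h1
      · exact absurd h1.1 (hXY _ hx)
    have h2 : y = y' := by
      by_contra hne
      have : y' ∈ insert x' (Y \ {y'}) := hs (Or.inr ⟨hy', fun h => hne h.symm⟩)
      rcases this with h3 | h3
      · exact hXY _ hx' (h3 ▸ hy')
      · exact h3.2 rfl
    rw [h1, h2]

lemma exBase_maximal {X Y B : Set α} (h : Disjoint X Y) (hB : ExBase X Y B) {K : Set α}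
    (hK : ∃ B', ExBase X Y B' ∧ K ⊆ B') (hs : B ⊆ K) : K ⊆ B := by
  obtain ⟨B', hB', hKB'⟩ := hK
  rw [exBase_antichain h hB hB' (hs.trans hKB')]
  exact hKB'

/-- The example: the bases are `Y` and the sets `{x} ∪ (Y \ {y})`. -/
def ex (X Y : Set α) (h : Disjoint X Y) : Matroid α where
  E := X ∪ Y
  IsBase := ExBase X Y
  Indep I := ∃ B, ExBase X Y B ∧ I ⊆ B
  indep_iff' _ := Iff.rfl
  exists_isBase := ⟨Y, Or.inl rfl⟩
  isBase_exchange := by
    have hXY : ∀ x ∈ X, x ∉ Y := fun x hx hy => disjoint_left.1 h hx hy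
    rintro B₁ B₂ h₁ h₂ a ⟨ha1, ha2⟩
    rcases h₁ with rfl | ⟨x, hx, y, hy, rfl⟩ <;> rcases h₂ with rfl | ⟨x', hx', y', hy', rfl⟩
    · exact absurd ha1 ha2
    · exact ⟨x', ⟨mem_insert _ _, hXY _ hx'⟩, Or.inr ⟨x', hx', a, ha1, rfl⟩⟩
    · have hax : a = x := by
        rcases ha1 with h1 | h1
        · exact h1
        · exact absurd h1.1 ha2
      subst hax
      refine ⟨y, ⟨hy, ?_⟩, Or.inl ?_⟩
      · rintro (h1 | h1)
        · exact hXY _ hx (h1 ▸ hy)
        · exact h1.2 rfl
      · have : insert a (B₂ \ {y}) \ {a} = B₂ \ {y} := by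
          ext z
          simp only [mem_sdiff, mem_insert_iff, mem_singleton_iff]
          constructor
          · rintro ⟨h1 | h1, h2⟩
            · exact absurd h1 h2
            · exact h1
          · rintro h1
            exact ⟨Or.inr h1, fun h2 => ha2 (h2 ▸ h1.1)⟩
        rw [this, insert_sdiff_singleton, insert_eq_of_mem hy]
    · rcases ha1 with h1 | h1
      · subst h1
        refine ⟨x', ⟨mem_insert _ _, ?_⟩, Or.inr ⟨x', hx', y, hy, ?_⟩⟩
        · rintro (h2 | h2)
          · exact ha2 (h2 ▸ mem_insert _ _)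
          · exact hXY _ hx' h2.1
        · have : insert a (Y \ {y}) \ {a} = Y \ {y} := by
            ext z
            simp only [mem_sdiff, mem_insert_iff, mem_singleton_iff]
            constructor
            · rintro ⟨h1 | h1, h2⟩
              · exact absurd h1 h2
              · exact h1
            · rintro h1
              exact ⟨Or.inr h1, fun h2 => hXY _ hx (h2 ▸ h1.1)⟩
          rw [this]
      · have hay' : a = y' := by
          by_contra hne
          exact ha2 (Or.inr ⟨h1.1, hne⟩)
        subst hay'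
        have hya : y ≠ a := fun hh => h1.2 hh.symm
        refine ⟨y, ⟨Or.inr ⟨hy, hya⟩, ?_⟩, Or.inr ⟨x, hx, a, hy', ?_⟩⟩
        · rintro (h2 | h2)
          · exact hXY _ hx (h2 ▸ hy)
          · exact h2.2 rfl
        · ext z
          simp only [mem_sdiff, mem_insert_iff, mem_singleton_iff]
          constructor
          · rintro (h2 | ⟨h2 | h2, h3⟩)
            · exact Or.inr ⟨h2 ▸ hy, h2 ▸ hya⟩
            · exact Or.inl h2
            · exact Or.inr ⟨h2.1, h3⟩
          · rintro (h2 | h2)
            · exact Or.inr ⟨Or.inl h2, fun h3 => hXY _ hx (h2 ▸ h3 ▸ hy')⟩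
            · by_cases hzy : z = y
              · exact Or.inl hzy
              · exact Or.inr ⟨Or.inr ⟨h2.1, hzy⟩, h2.2⟩
  maximality := by
    intro Z hZ I hI hIZ
    by_cases hYZ : Y ⊆ Z
    · obtain ⟨B, hB, hIB⟩ := hI
      have key : ∃ B, ExBase X Y B ∧ I ⊆ B ∧ B ⊆ Z := by
        rcases hB with rfl | ⟨x, hx, y, hy, rfl⟩
        · exact ⟨B, Or.inl rfl, hIB, hYZ⟩
        · by_cases hxZ : x ∈ Z
          · exact ⟨_, Or.inr ⟨x, hx, y, hy, rfl⟩, hIB,
              insert_subset hxZ (sdiff_subset.trans hYZ)⟩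
          · refine ⟨Y, Or.inl rfl, fun z hz => ?_, hYZ⟩
            rcases hIB hz with h1 | h1
            · exact absurd (h1 ▸ hIZ hz) hxZ
            · exact h1.1
      obtain ⟨B, hB, hIB, hBZ⟩ := key
      exact ⟨B, hIB, ⟨⟨B, hB, subset_rfl⟩, hBZ⟩, fun K hK hBK => exBase_maximal h hB hK.1 hBK⟩
    · obtain ⟨y, hyY, hyZ⟩ := not_subset.1 hYZ
      by_cases hx : ∃ x ∈ Z ∩ X, I ⊆ insert x Y
      · obtain ⟨x, ⟨hxZ, hxX⟩, hIx⟩ := hx
        refine ⟨insert x (Z ∩ Y), fun z hz => ?_, ⟨⟨insert x (Y \ {y}),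
          Or.inr ⟨x, hxX, y, hyY, rfl⟩, insert_subset_insert fun z hz => ⟨hz.2, fun h => hyZ (h ▸ hz.1)⟩⟩,
          insert_subset hxZ inter_subset_left⟩, ?_⟩
        · rcases hIx hz with h1 | h1
          · exact Or.inl h1
          · exact Or.inr ⟨hIZ hz, h1⟩
        · rintro K ⟨⟨B, hB, hKB⟩, hKZ⟩ hJK z hz
          have hxB : x ∈ B := hKB (hJK (mem_insert _ _))
          rcases hB with rfl | ⟨x', hx', y', hy', rfl⟩
          · exact absurd hxB (fun h' => disjoint_left.1 h hxX h')
          · have hxx : x = x' := by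
              rcases hxB with h1 | h1
              · exact h1
              · exact absurd h1.1 (fun h' => disjoint_left.1 h hxX h')
            subst hxx
            rcases hKB hz with h1 | h1
            · exact Or.inl h1
            · exact Or.inr ⟨hKZ hz, h1.1⟩
      · push Not at hx
        obtain ⟨B, hB, hIB⟩ := hI
        have hIY : I ⊆ Y := by
          rcases hB with rfl | ⟨x, hx', y, hy, rfl⟩
          · exact hIB
          · by_cases hxI : x ∈ I
            · exact absurd (hIB.trans (insert_subset_insert sdiff_subset)) (hx x ⟨hIZ hxI, hx'⟩)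
            · intro z hz
              rcases hIB hz with h1 | h1
              · exact absurd (h1 ▸ hz) hxI
              · exact h1.1
        have hZY : Z ⊆ Y := by
          intro z hz
          rcases hZ hz with h1 | h1
          · exact absurd (hIY.trans (subset_insert _ _)) (hx z ⟨hz, h1⟩)
          · exact h1
        exact ⟨Z, hIZ, ⟨⟨Y, Or.inl rfl, hZY⟩, subset_rfl⟩, fun K hK _ => hK.2⟩
  subset_ground := by
    rintro B (rfl | ⟨x, hx, y, hy, rfl⟩)
    · exact subset_union_right
    · exact insert_subset (Or.inl hx) (sdiff_subset.trans subset_union_right)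


lemma not_split_ex {X Y : Set α} (h : Disjoint X Y) (hX : X.Infinite) (hY : Y.Infinite) :
    ¬ Split (ex X Y h) := by
  have hXY : ∀ x ∈ X, x ∉ Y := fun x hx hy => disjoint_left.1 h hx hy
  rintro ⟨A, B, hd, hA, hB, he⟩
  have hE : A.E ∪ B.E = X ∪ Y := by
    have : (ex X Y h).E = (A.disjointSum B hd).E := by rw [he]
    rw [disjointSum_ground_eq] at this
    exact this.symm
  have hI : ∀ I, (∃ C, ExBase X Y C ∧ I ⊆ C) ↔
      A.Indep (I ∩ A.E) ∧ B.Indep (I ∩ B.E) ∧ I ⊆ A.E ∪ B.E := by
    intro I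
    have : (ex X Y h).Indep I ↔ (A.disjointSum B hd).Indep I := by rw [he]
    rw [disjointSum_indep_iff] at this
    exact this
  have hdep : ∀ x ∈ X, ¬ ∃ C, ExBase X Y C ∧ insert x Y ⊆ C := by
    rintro x hx ⟨C, rfl | ⟨x', hx', y, hy, rfl⟩, hC⟩
    · exact hXY x hx (hC (mem_insert _ _))
    · rcases hC (Or.inr hy) with h1 | h1
      · exact hXY _ hx' (h1 ▸ hy)
      · exact h1.2 rfl
  have hproper : ∀ x ∈ X, ∀ I ⊆ insert x Y, ∀ z ∈ insert x Y, z ∉ I →
      ∃ C, ExBase X Y C ∧ I ⊆ C := by
    intro x hx I hI z hz hzI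
    by_cases hzx : z = x
    · subst hzx
      exact ⟨Y, Or.inl rfl, fun w hw => (hI hw).resolve_left fun h' => hzI (h' ▸ hw)⟩
    · have hzY : z ∈ Y := hz.resolve_left hzx
      refine ⟨_, Or.inr ⟨x, hx, z, hzY, rfl⟩, fun w hw => ?_⟩
      rcases hI hw with h1 | h1
      · exact Or.inl h1
      · exact Or.inr ⟨h1, fun h' => hzI (h' ▸ hw)⟩
  -- each circuit `{x} ∪ Y` lies in one part
  have hpart : ∀ x ∈ X, insert x Y ⊆ A.E ∨ insert x Y ⊆ B.E := by
    intro x hx
    by_contra hcon
    push Not at hcon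
    obtain ⟨a, ha, haA⟩ := not_subset.1 hcon.1
    obtain ⟨b, hb, hbB⟩ := not_subset.1 hcon.2
    apply hdep x hx
    rw [hI]
    have h1 := hproper x hx (insert x Y ∩ A.E) inter_subset_left a ha fun h' => haA h'.2
    have h2 := hproper x hx (insert x Y ∩ B.E) inter_subset_left b hb fun h' => hbB h'.2
    rw [hI] at h1 h2
    refine ⟨?_, ?_, ?_⟩
    · rw [← inter_self A.E, ← inter_assoc]; exact h1.1
    · rw [← inter_self B.E, ← inter_assoc]; exact h2.2.1
    · rw [hE]; exact insert_subset (Or.inl hx) subset_union_right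
  obtain ⟨x₀, hx₀⟩ := hX.nonempty
  obtain ⟨y₀, hy₀⟩ := hY.nonempty
  rcases hpart x₀ hx₀ with hp | hp
  · -- everything is in the finitary part
    apply hdep x₀ hx₀
    rw [hI]
    have hyA : y₀ ∈ A.E := hp (Or.inr hy₀)
    refine ⟨?_, ?_, ?_⟩
    · rw [inter_eq_self_of_subset_left hp]
      apply indep_of_forall_finite_subset_indep
      intro J hJ hJf
      have hinf : (insert x₀ Y).Infinite := hY.mono (subset_insert _ _)
      obtain ⟨z, hz, hzJ⟩ := hinf.exists_notMem_finset hJf.toFinset
      have := hproper x₀ hx₀ J hJ z hz (by simpa using hzJ)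
      rw [hI] at this
      rw [inter_eq_self_of_subset_left (hJ.trans hp)] at this
      exact this.1
    · rw [(hd.mono_left hp).inter_eq]
      exact B.empty_indep
    · exact hp.trans subset_union_left
  · -- everything is in the cofinitary part
    have hyB : y₀ ∈ B.E := hp (Or.inr hy₀)
    have hall : X ∪ Y ⊆ B.E := by
      intro z hz
      rcases hz with hz | hz
      · rcases hpart z hz with h1 | h1
        · exact absurd hyB (disjoint_left.1 hd (h1 (Or.inr hy₀)))
        · exact h1 (mem_insert _ _)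
      · exact hp (Or.inr hz)
    have hBE : B.E = X ∪ Y := subset_antisymm (hE ▸ subset_union_right) hall
    have hAE : A.E = ∅ := by
      have : Disjoint A.E A.E := hd.mono_right ((hE ▸ subset_union_left : A.E ⊆ X ∪ Y).trans hall)
      simpa using this
    have hbase : ∀ C, ExBase X Y C ↔ B.IsBase C := by
      intro C
      have : (ex X Y h).IsBase C ↔ (A.disjointSum B hd).IsBase C := by rw [he]
      rw [disjointSum_isBase_iff] at this
      refine this.trans ⟨fun h' => ?_, fun h' => ?_⟩
      · have h2 : C ⊆ B.E := by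
          have := h'.2.2
          rwa [hAE, empty_union] at this
        have := h'.2.1
        rwa [inter_eq_self_of_subset_left h2] at this
      · refine ⟨?_, ?_, h'.subset_ground.trans subset_union_right⟩
        · have : A = emptyOn α := ground_eq_empty_iff.1 hAE
          rw [this, emptyOn_ground, inter_empty]
          simp
        · rwa [inter_eq_self_of_subset_left h'.subset_ground]
    have hK : B✶.Indep (insert y₀ X) := by
      apply indep_of_forall_finite_subset_indep
      intro J hJ hJf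
      obtain ⟨x, hx, hxJ⟩ := hX.exists_notMem_finset hJf.toFinset
      have hxJ' : x ∉ J := by simpa using hxJ
      rw [← coindep_def, coindep_iff_exists']
      refine ⟨⟨insert x (Y \ {y₀}), (hbase _).1 (Or.inr ⟨x, hx, y₀, hy₀, rfl⟩), ?_⟩, ?_⟩
      · rintro z (rfl | hz)
        · exact ⟨hall (Or.inl hx), hxJ'⟩
        · refine ⟨hall (Or.inr hz.1), fun hzJ => ?_⟩
          rcases hJ hzJ with h1 | h1
          · exact hz.2 h1
          · exact hXY _ h1 hz.1
      · rw [hBE]
        intro z hz
        rcases hJ hz with h1 | h1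
        · exact Or.inr (h1 ▸ hy₀)
        · exact Or.inl h1
    rw [← coindep_def, coindep_iff_exists'] at hK
    obtain ⟨⟨C, hC, hCs⟩, -⟩ := hK
    rw [← hbase] at hC
    rcases hC with rfl | ⟨x, hx, y, hy, rfl⟩
    · exact (hCs hy₀).2 (mem_insert _ _)
    · exact (hCs (mem_insert _ _)).2 (Or.inr hx)

/-- **Theorem.** For every infinite set `S` (the set of elements of the type `α`) there is an
admissible system `D` such that every `D W` contains all independence spaces on `W`, which is
closed under arbitrary direct sums, and such that for every infinite `W ⊆ S` some B-matroid on `W`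
is not in `D W`. -/
theorem result (α : Type*) [Infinite α] :
    ∃ D : Set α → Set (Set (Set α)), Admissible D ∧
      (∀ W, ∀ I, IsIndependenceSpace W I → I ∈ D W) ∧
      ClosedUnderDirectSums D ∧
      ∀ W : Set α, W.Infinite → ∃ I, IsBMatroid W I ∧ I ∉ D W := by
  refine ⟨sys α, admissible_sys, fun W I h => indep_mem_sys h, closed_sys, fun W hW => ?_⟩
  obtain ⟨X, hXW, hX, hY⟩ : ∃ X ⊆ W, X.Infinite ∧ (W \ X).Infinite := by
    let f := hW.natEmbedding
    have hinj : Function.Injective fun n : ℕ => (f n : α) :=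
      Subtype.val_injective.comp f.injective
    refine ⟨range fun n : ℕ => (f (2 * n) : α), ?_, ?_, ?_⟩
    · rintro _ ⟨n, rfl⟩
      exact (f (2 * n)).2
    · exact infinite_range_of_injective fun a b h => by
        have := hinj h
        omega
    · refine (infinite_range_of_injective (f := fun n : ℕ => (f (2 * n + 1) : α))
        fun a b h => by
          have := hinj h
          omega).mono ?_
      rintro _ ⟨n, rfl⟩
      refine ⟨(f (2 * n + 1)).2, ?_⟩
      rintro ⟨m, hm⟩
      have := hinj hm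
      omega
  have hd : Disjoint X (W \ X) := disjoint_sdiff_right
  refine ⟨fam (ex X (W \ X) hd), ?_, ?_⟩
  · have := bMatroid_fam (ex X (W \ X) hd)
    have e : (ex X (W \ X) hd).E = W := union_sdiff_cancel hXW
    rwa [e] at this
  · rintro ⟨M, hM, hME, hI⟩
    apply not_split_ex hd hX hY
    have : ex X (W \ X) hd = M := by
      refine ext_indep ?_ fun I _ => ?_
      · rw [hME]; exact union_sdiff_cancel hXW
      · have : I ∈ fam (ex X (W \ X) hd) ↔ I ∈ fam M := by rw [hI]
        exact this
    rwa [this]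

end Pool.Agent.Results.MP_cb2a9f_co.ManySystems
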